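import Pool.Agent.Helper68.DS.Goals

/-! Packet ADJ1: adding `c` to the `(0,0)` entry. -/

set_option autoImplicit false

namespace Pool.Agent.Helper58.DS

open Pool.Agent.Helper68.DS

theorem ADJ1 : ADJ1_stmt := by
  intro A _ m M c
  refine ⟨fun b => ?_, fun a => ?_, fun a b => ?_⟩
  · rw [Matrix.adjugate_fin_succ_eq_det_submatrix, Matrix.adjugate_fin_succ_eq_det_submatrix]
    congr 2
    ext i j
    simp [Matrix.submatrix_apply, Matrix.add_apply, Matrix.single_apply]
    intro _ h
    exact absurd h.symm (Fin.succ_ne_zero j)
  · rw [Matrix.adjugate_fin_succ_eq_det_submatrix, Matrix.adjugate_fin_succ_eq_det_submatrix]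
    congr 2
    ext i j
    simp [Matrix.submatrix_apply, Matrix.add_apply, Matrix.single_apply]
    intro h
    exact absurd h.symm (Fin.succ_ne_zero i)
  · rw [Matrix.adjugate_apply, Matrix.adjugate_apply, Matrix.adjugate_apply]
    have h1 : (M + Matrix.single 0 0 c).updateRow b.succ (Pi.single a.succ 1) =
        (M.updateRow b.succ (Pi.single a.succ 1)).updateRow 0 (M 0 + Pi.single 0 c) := by
      ext i j
      by_cases hi0 : i = 0
      · subst hi0
        rw [Matrix.updateRow_self, Matrix.updateRow_ne (Fin.succ_ne_zero b).symm]
        simp [Matrix.single_apply, Pi.single_apply, eq_comm]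
      · rw [Matrix.updateRow_ne hi0]
        by_cases hib : i = b.succ
        · subst hib
          rw [Matrix.updateRow_self, Matrix.updateRow_self]
        · rw [Matrix.updateRow_ne hib, Matrix.updateRow_ne hib]
          simp [Matrix.single_apply, Ne.symm hi0]
    have h2 : (M.updateRow b.succ (Pi.single a.succ 1)).updateRow 0 (M 0) =
        M.updateRow b.succ (Pi.single a.succ 1) := by
      ext i j
      by_cases hi0 : i = 0
      · subst hi0
        rw [Matrix.updateRow_self, Matrix.updateRow_ne (Fin.succ_ne_zero b).symm]
      · rw [Matrix.updateRow_ne hi0]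
    rw [h1, Matrix.det_updateRow_add, h2]
    congr 1
    rw [Matrix.det_succ_row_zero, Finset.sum_eq_single (0 : Fin (m + 1))]
    · rw [Matrix.updateRow_self]
      simp only [Fin.val_zero, pow_zero, one_mul, Pi.single_eq_same]
      congr 2
      ext i j
      simp only [Matrix.submatrix_apply, Fin.succAbove_zero]
      rw [Matrix.updateRow_ne (Fin.succ_ne_zero i)]
      by_cases hib : i = b
      · subst hib
        rw [Matrix.updateRow_self, Matrix.updateRow_self]
        simp [Pi.single_apply]
      · rw [Matrix.updateRow_ne (fun h => hib (Fin.succ_injective _ h)), Matrix.updateRow_ne hib]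
        rfl
    · intro j _ hj
      rw [Matrix.updateRow_self, Pi.single_eq_of_ne hj]
      ring
    · intro h
      exact absurd (Finset.mem_univ _) h

end Pool.Agent.Helper58.DS
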