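import Pool.Agent.Helper68.DS.Goals

/-! Packet MULTI: iteration over `n` planes. -/

set_option autoImplicit false

namespace Pool.Agent.Helper58.DS

open Pool.Agent.Helper68.DS MvPolynomial

theorem ell_hom (μ : ℂ) : (ell μ).IsHomogeneous 1 := by
  unfold ell
  exact (isHomogeneous_X ℂ 0).sub (isHomogeneous_C_mul_X μ 1)

theorem prod_ell_hom (μ : ℕ → ℂ) (i : ℕ) :
    (∏ l ∈ Finset.range i, ell (μ l)).IsHomogeneous i := by
  have h := IsHomogeneous.prod (Finset.range i) (fun l => ell (μ l)) (fun _ => 1)
    (fun l _ => ell_hom (μ l))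
  simpa using h

theorem MULTI (h1 : STEPLIM_stmt) (h2 : STEPGEN_stmt) (_h3 : KPR_stmt) (h4 : DIM_stmt) :
    MULTI_stmt := by
  intro s n k0 hk0 hDD
  induction n with
  | zero =>
    intro μ E _ _
    obtain ⟨G, hG, hS⟩ := hDD
    exact ⟨G, hG, hS.trans le_sup_left⟩
  | succ n ih =>
    intro μ E hE h
    -- the colon space
    have hcol : ∃ G' : Fin s → Matrix (Fin (k0 + n)) (Fin (k0 + n)) (MvPolynomial (Fin 4) ℂ),
        (∀ i, IsLin (G' i)) ∧
        HS 4 (k0 + n) ≤ (⨆ i, TT (G' i)) ⊔ colon E (k0 + n) (μ 0) := by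
      refine ih (fun i => μ (i + 1)) (colon E (k0 + n) (μ 0)) inf_le_right ?_
      intro i hi
      obtain ⟨g, w, hw1, hw2, hw3, hw4⟩ := h (i + 1) (by omega)
      have hdeg : k0 + (n + 1) - (i + 1) = k0 + n - i := by omega
      rw [hdeg] at hw4
      refine ⟨g, w, fun a => ?_, fun a => ?_, hw3, hw4⟩
      · have := hw1 a
        rwa [hdeg] at this
      · refine Submodule.mem_inf.mpr ⟨?_, ?_⟩
        · rw [Submodule.mem_comap, LinearMap.mulLeft_apply]
          have := hw2 a
          rw [Finset.prod_range_succ'] at this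
          have e : ell (μ 0) * ((∏ l ∈ Finset.range i, ell (μ (l + 1))) * w a) =
              (∏ l ∈ Finset.range i, ell (μ (l + 1))) * ell (μ 0) * w a := by ring
          rw [e]
          exact this
        · have hw := hw1 a
          rw [hdeg, mem_homogeneousSubmodule] at hw
          rw [mem_homogeneousSubmodule]
          have hp := (prod_ell_hom (fun l => μ (l + 1)) i).mul hw
          have he : i + (k0 + n - i) = k0 + n := by omega
          rw [he] at hp
          exact hp
    -- the dimension condition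
    have hfin : (k0 + n + 3).choose 2 ≤ s * (4 * (k0 + n) + 2) +
        Module.finrank ℂ ↥(E.map (pr (μ 0)).toLinearMap) := by
      obtain ⟨g, w, hw1, hw2, hw3, hw4⟩ := h 0 (by omega)
      have hFD : FiniteDimensional ℂ ↥(HS 4 (k0 + (n + 1))) := (h4 3 (k0 + (n + 1))).1
      have hFDE : FiniteDimensional ℂ ↥E := Submodule.finiteDimensional_of_le hE
      have hmem : ∀ a, pr (μ 0) (w a) ∈ E.map (pr (μ 0)).toLinearMap := by
        intro a
        have h0 := hw2 a
        simp only [Finset.range_zero, Finset.prod_empty, one_mul] at h0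
        exact Submodule.mem_map_of_mem (f := (pr (μ 0)).toLinearMap) h0
      have hli : LinearIndependent ℂ
          (fun a => (⟨pr (μ 0) (w a), hmem a⟩ : ↥(E.map (pr (μ 0)).toLinearMap))) := by
        refine LinearIndependent.of_comp (Submodule.subtype _) ?_
        exact hw3
      have hcard := hli.fintype_card_le_finrank
      rw [Fintype.card_fin] at hcard
      have e1 : k0 + (n + 1) - 0 + 2 = k0 + n + 3 := by omega
      have e2 : 4 * (k0 + (n + 1) - 0) - 2 = 4 * (k0 + n) + 2 := by omega
      rw [e1, e2] at hw4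
      exact hw4.trans (Nat.add_le_add_left hcard _)
    obtain ⟨M, hM1, hM2, hM3⟩ := h2 (k0 + n) s (by omega) (μ 0) E hE hcol hfin
    exact h1 (k0 + n) s (μ 0) E hE M hM1 hM2 hM3

end Pool.Agent.Helper58.DS
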