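import Pool.Agent.Helper68.DS.Goals2

/-! Packet TRANS: linear change of coordinates. -/

set_option autoImplicit false

namespace Pool.Agent.Helper58.DS

open Pool.Agent.Helper68.DS MvPolynomial

theorem lf_hom {n : ℕ} (c : Fin n → ℂ) : (lf c).IsHomogeneous 1 := by
  unfold lf
  exact IsHomogeneous.sum _ _ _ fun j _ => isHomogeneous_C_mul_X _ _

theorem sb_lf (g : Matrix (Fin 3) (Fin 3) ℂ) (c : Fin 3 → ℂ) :
    sb g (lf c) = lf (Matrix.vecMul c g) := by
  simp only [lf, sb, map_sum, map_mul, aeval_X, algHom_C, MvPolynomial.algebraMap_eq, Matrix.vecMul,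
    dotProduct, Finset.sum_mul, Finset.mul_sum]
  rw [Finset.sum_comm]
  exact Finset.sum_congr rfl fun i _ => Finset.sum_congr rfl fun j _ => by ring

theorem sb_X (g : Matrix (Fin 3) (Fin 3) ℂ) (i : Fin 3) : sb g (X i) = lf (g i) := by
  simp [sb]

theorem lf_one (i : Fin 3) : lf ((1 : Matrix (Fin 3) (Fin 3) ℂ) i) = X i := by
  unfold lf
  rw [Finset.sum_eq_single i]
  · simp
  · intro j _ hj
    rw [Matrix.one_apply_ne hj.symm]
    simp
  · intro h
    exact absurd (Finset.mem_univ _) h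

theorem sb_sb (g h : Matrix (Fin 3) (Fin 3) ℂ) (f : MvPolynomial (Fin 3) ℂ) :
    sb g (sb h f) = sb (h * g) f := by
  have : (sb g).comp (sb h) = sb (h * g) := by
    refine MvPolynomial.algHom_ext fun i => ?_
    rw [AlgHom.comp_apply, sb_X, sb_lf, sb_X]
    rfl
  rw [← this, AlgHom.comp_apply]

theorem sb_one (f : MvPolynomial (Fin 3) ℂ) : sb 1 f = f := by
  have : sb 1 = AlgHom.id ℂ _ := by
    refine MvPolynomial.algHom_ext fun i => ?_
    rw [sb_X, lf_one, AlgHom.id_apply]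
  rw [this, AlgHom.id_apply]

theorem sb_mem (g : Matrix (Fin 3) (Fin 3) ℂ) (k : ℕ) (f : MvPolynomial (Fin 3) ℂ)
    (hf : f ∈ HS 3 k) : sb g f ∈ HS 3 k := by
  rw [mem_homogeneousSubmodule] at hf ⊢
  have h := hf.aeval (fun i => lf (g i)) (n := 1) (fun i => lf_hom _)
  rw [one_mul] at h
  exact h

theorem TRANS : TRANS_stmt := by
  intro g hg
  have h1 : g⁻¹ * g = 1 := Matrix.nonsing_inv_mul g hg
  have h2 : g * g⁻¹ = 1 := Matrix.mul_nonsing_inv g hg
  have hL : ∀ f, sb g⁻¹ (sb g f) = f := fun f => by rw [sb_sb, h2, sb_one]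
  have hR : ∀ f, sb g (sb g⁻¹ f) = f := fun f => by rw [sb_sb, h1, sb_one]
  have hinj : Function.Injective (sb g) := Function.LeftInverse.injective hL
  have hv : ∀ x : Fin 3 → ℂ, Matrix.vecMul (Matrix.vecMul x g) g⁻¹ = x := fun x => by
    rw [Matrix.vecMul_vecMul, h2, Matrix.vecMul_one]
  have hv' : ∀ x : Fin 3 → ℂ, Matrix.vecMul (Matrix.vecMul x g⁻¹) g = x := fun x => by
    rw [Matrix.vecMul_vecMul, h1, Matrix.vecMul_one]
  refine ⟨sb_lf g, ⟨hinj, fun f => ⟨_, hR f⟩⟩, fun k f => ⟨fun h => ?_, sb_mem g k f⟩, fun H =>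
    ⟨?_, fun k r lam hr => ⟨fun i => Matrix.vecMul (lam i) g⁻¹, ?_⟩⟩⟩
  · have := sb_mem g⁻¹ k _ h
    rwa [hL] at this
  · exact (LinearEquiv.finrank_eq
      (Submodule.equivMapOfInjective (sb g).toLinearMap hinj H)).symm
  · let e : (Fin k → Fin 3 → ℂ) →ₗ[ℂ] (Fin k → Fin 3 → ℂ) :=
      LinearMap.pi fun i => (Matrix.vecMulLinear g) ∘ₗ LinearMap.proj i
    have he : ∀ ξ i, e ξ i = Matrix.vecMul (ξ i) g := fun ξ i => rfl
    have heinj : Function.Injective e := by
      intro ξ η h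
      funext i
      have := congrFun h i
      rw [he, he] at this
      rw [← hv (ξ i), this, hv]
    have hle : (KH (fun i => Matrix.vecMul (lam i) g⁻¹) H).map e ≤
        KH lam (H.map (sb g).toLinearMap) := by
      rintro _ ⟨ξ, hξ, rfl⟩
      unfold KH at hξ ⊢
      rw [SetLike.mem_coe, Submodule.mem_comap] at hξ
      rw [Submodule.mem_comap]
      refine ⟨_, hξ, ?_⟩
      change sb g (∑ i, lf (ξ i) * Lam (fun i => Matrix.vecMul (lam i) g⁻¹) i) =
        ∑ i, lf (e ξ i) * Lam lam i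
      simp only [Lam, map_sum, map_mul, map_prod, sb_lf, hv', he]
    calc Module.finrank ℂ ↥(KH (fun i => Matrix.vecMul (lam i) g⁻¹) H)
        = Module.finrank ℂ ↥((KH (fun i => Matrix.vecMul (lam i) g⁻¹) H).map e) :=
          LinearEquiv.finrank_eq (Submodule.equivMapOfInjective e heinj _)
      _ ≤ Module.finrank ℂ ↥(KH lam (H.map (sb g).toLinearMap)) := Submodule.finrank_mono hle
      _ ≤ r := hr

end Pool.Agent.Helper58.DS
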